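import Mathlib
import Pool.Agent.helper7.IG.Basic

/-!
# IG, module DI: `D` is injective on odd vertices
-/

set_option autoImplicit false

open Polynomial

noncomputable section

namespace Pool.Agent.helper7.IG

lemma di_DDk_one : DDk.coeff 1 = 1 := by
  classical
  rw [DDk_coeff, if_pos ⟨1, by norm_num, odd_one⟩]

lemma di_coeff_self {e : ℕ} (he : e ≠ 0) (ζ : kkˣ) : (sig e ζ DDk).coeff (e : ℤ) = (ζ : kk) := by
  have h := sig_coeff_mul he ζ DDk 1
  rw [mul_one, di_DDk_one, mul_one, zpow_one] at h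
  exact h

lemma di_coeff_lt {e e' : ℕ} (he : e ≠ 0) (h : e < e') (ζ : kkˣ) :
    (sig e' ζ DDk).coeff (e : ℤ) = 0 := by
  apply sig_coeff_of_not_dvd (by omega)
  intro h2
  have h3 : e' ∣ e := by exact_mod_cast h2
  exact absurd (Nat.le_of_dvd (Nat.pos_of_ne_zero he) h3) (by omega)

theorem DI_of (hME : ME_stmt) : DI_stmt := by
  intro Φ v v' hv hv' h
  have h1 : sig v.1 v.2 DDk = sig v'.1 v'.2 DDk :=
    (Φ.cl_inj_iff (Frame.D_mem hME hv) (Frame.D_mem hME hv')).mp h
  have e1 : v.1 ≠ 0 := by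
    intro h0
    rw [h0] at hv
    exact absurd hv (by decide)
  have e2 : v'.1 ≠ 0 := by
    intro h0
    rw [h0] at hv'
    exact absurd hv' (by decide)
  have h3 : v.1 = v'.1 := by
    rcases lt_trichotomy v.1 v'.1 with hlt | heq | hgt
    · exfalso
      have := di_coeff_self e1 v.2
      rw [h1, di_coeff_lt e1 hlt] at this
      exact v.2.ne_zero this.symm
    · exact heq
    · exfalso
      have := di_coeff_self e2 v'.2
      rw [← h1, di_coeff_lt e2 hgt] at this
      exact v'.2.ne_zero this.symm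
  have h4 : v.2 = v'.2 := by
    have h5 := di_coeff_self e1 v.2
    rw [h1, h3] at h5
    rw [di_coeff_self e2 v'.2] at h5
    exact Units.ext h5.symm
  exact Prod.ext h3 h4

end Pool.Agent.helper7.IG
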