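import Mathlib
import Pool.Agent.helper7.IG.Basic

/-!
# IG, module PG
-/

set_option autoImplicit false

open Polynomial

noncomputable section

namespace Pool.Agent.helper7.IG

lemma pg_choose (hP3 : P3_stmt) (s : ℕ) {d δ : ℤ} (hd : Odd d) (hδ : Odd δ) :
    ∃ i : ℕ, 3 ^ i * d ≡ δ [ZMOD 2 ^ s] ∨ 3 ^ i * d ≡ -δ [ZMOD 2 ^ s] := by
  have hcop : IsCoprime d (2 ^ s : ℤ) := by
    apply IsCoprime.pow_right
    obtain ⟨k, rfl⟩ := hd
    exact ⟨1, -k, by ring⟩
  obtain ⟨u, v, huv⟩ := hcop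
  have hud : u * d ≡ 1 [ZMOD 2 ^ s] := by
    rw [Int.modEq_iff_dvd]
    exact ⟨v, by linear_combination -huv⟩
  by_cases hs : s = 0
  · subst hs
    refine ⟨0, Or.inl ?_⟩
    rw [pow_zero]
    exact Int.modEq_one
  have hu : Odd u := by
    have h1 : Odd (u * d) := by
      have e1 : u * d = 1 + 2 ^ s * (-v) := by linear_combination huv
      rw [e1]
      refine odd_one.add_even ?_
      exact ((even_two : Even (2 : ℤ)).pow_of_ne_zero hs).mul_right _
    exact (Int.odd_mul.mp h1).1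
  obtain ⟨i, hi⟩ := hP3 s (u * δ) (hu.mul hδ)
  refine ⟨i, ?_⟩
  have e1 : u * δ * d ≡ δ [ZMOD 2 ^ s] := by
    have := hud.mul_right δ
    rw [one_mul] at this
    calc u * δ * d = u * d * δ := by ring
      _ ≡ δ [ZMOD 2 ^ s] := this
  rcases hi with hi | hi
  · left
    exact (hi.symm.mul_right d).trans e1
  · right
    have h2 := (hi.symm.mul_right d).trans e1
    have h3 := h2.neg
    calc 3 ^ i * d = -(-3 ^ i * d) := by ring
      _ ≡ -δ [ZMOD 2 ^ s] := h3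

theorem PG_of (hME : ME_stmt) (hTHM : THM_stmt) (hP3 : P3_stmt) (hNSF : NSF_stmt)
    (hTR1 : TR1_stmt) (hTR2 : TR2_stmt) (hUD : UD_stmt) (hNSX : NSX_stmt) (hDM : DM_stmt) :
    PG_stmt := by
  have _ := hME
  have _ := hTHM
  intro Φ N t s δ hN h3 ht hs hδ
  have hN0 : N ≠ 0 := by
    rintro rfl
    exact absurd hN (by decide)
  have ht0 : t ≠ 0 := by
    rintro rfl
    rw [zero_pow two_ne_zero, zero_dvd_iff] at ht
    exact hN0 ht
  have htN : t ∣ N := (dvd_pow_self t two_ne_zero).trans ht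
  have ht_odd : Odd t := Odd.of_dvd_nat hN htN
  have hNt : Odd (N / t) := Odd.of_dvd_nat hN (Nat.div_dvd_of_dvd htN)
  have hNt' : Odd (N * t) := hN.mul ht_odd
  obtain ⟨n1, hn1, hn1D⟩ := hTR1 Φ N t hN ht
  have hn1F := hNSF Φ N n1 hN hn1
  obtain ⟨d1, hd1, hX1⟩ := hUD Φ n1 (N / t, 1) (N * t, 1) hNt hNt' hn1D s hs
  obtain ⟨i, hi⟩ := pg_choose hP3 s hd1 hδ
  obtain ⟨h, hhD, hhX⟩ := hDM Φ (N * t) hNt' (h3.mul_right t)
  have hpD : ∀ j : ℕ, (h ^ j) (Φ.D (N * t, 1)) = Φ.D (N * t, 1) := by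
    intro j
    induction j with
    | zero => rfl
    | succ j ih =>
      rw [pow_succ]
      change (h ^ j) (h _) = _
      rw [hhD, ih]
  have hpX : ∀ (j : ℕ) (c : ℤ), Odd c →
      (h ^ j) (Φ.X (N * t, 1) s c) = Φ.X (N * t, 1) s (3 ^ j * c) := by
    intro j
    induction j with
    | zero =>
      intro c _
      rw [pow_zero, pow_zero, one_mul]
      rfl
    | succ j ih =>
      intro c hc
      have e1 : (h ^ (j + 1)) (Φ.X (N * t, 1) s c) = (h ^ j) (h (Φ.X (N * t, 1) s c)) := by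
        rw [pow_succ]
        rfl
      rw [e1, hhX s c hs hc, ih _ ((by decide : Odd (3 : ℤ)).mul hc), pow_succ, mul_assoc]
  obtain ⟨n2, hn2, hn2D⟩ := hTR2 Φ (N * t) t (h ^ i) hNt' (ht.mul_right t) (hpD i)
  have hdiv : N * t / t = N := Nat.mul_div_cancel _ (Nat.pos_of_ne_zero ht0)
  rw [hdiv] at hn2D
  have hn2F := hNSF Φ (N * t) n2 hNt' hn2
  refine ⟨n2 * h ^ i * n1, ?_, ?_, ?_⟩
  · change n2 ((h ^ i) (n1 _)) = _
    rw [hn1F, hn2D]
  · change n2 ((h ^ i) (n1 _)) = _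
    rw [hn1D, hpD, hn2F]
  · intro c hc
    change n2 ((h ^ i) (n1 _)) = _
    have h3c : Odd ((3 : ℤ) ^ i * (d1 * c)) :=
      ((by decide : Odd (3 : ℤ)).pow).mul (hd1.mul hc)
    rw [hX1 c hc, hpX i _ (hd1.mul hc), hNSX Φ (N * t) n2 hNt' hn2 s _ hs h3c]
    apply Φ.X_congr'
    have e1 : (3 : ℤ) ^ i * (d1 * c) = 3 ^ i * d1 * c := by ring
    rw [e1]
    rcases hi with hi | hi
    · exact Or.inl (hi.mul_right c)
    · right
      have := hi.mul_right c
      rw [neg_mul] at this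
      exact this

end Pool.Agent.helper7.IG
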