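import Mathlib
import Pool.Agent.helper7.IG.Basic

/-!
# IG, modules NSF and TRL: the normal closure fixes the base vertex, local transitivity
-/

set_option autoImplicit false

open Polynomial

noncomputable section

namespace Pool.Agent.helper7.IG

lemma trl_inv_apply {A : Type*} [Field A] [Algebra kk A] (g : A ≃ₐ[kk] A) (x : A) :
    g⁻¹ (g x) = x := g.symm_apply_apply x

lemma trl_apply_inv {A : Type*} [Field A] [Algebra kk A] (g : A ≃ₐ[kk] A) (x : A) :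
    g (g⁻¹ x) = x := g.apply_symm_apply x

lemma trl_inv_fix {A : Type*} [Field A] [Algebra kk A] {g : A ≃ₐ[kk] A} {x y : A}
    (h : g x = y) : g⁻¹ y = x := by
  rw [← h]
  exact trl_inv_apply g x

theorem NSF_of (hME : ME_stmt) : NSF_stmt := by
  intro Φ N n hN hn
  unfold Frame.NS at hn
  induction hn using Subgroup.closure_induction with
  | mem x hx =>
    obtain ⟨g, T, ω, hg, hω, hT, rfl⟩ := hx
    change g (T (g⁻¹ (Φ.D (N, 1)))) = _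
    rw [trl_inv_fix hg, Frame.T_D hME hT hN 1, hω, one_mul, hg]
  | one => rfl
  | mul x y _ _ hx hy =>
    change x (y (Φ.D (N, 1))) = _
    rw [hy, hx]
  | inv x _ hx => exact trl_inv_fix hx

/-- Translations `ω` with `ω ^ N = 1`, conjugated by elements fixing the base vertex. -/
lemma trl_mem_NS {Φ : Frame} {N : ℕ} {g T : Φ.A ≃ₐ[kk] Φ.A} {ω : kkˣ}
    (hg : g (Φ.D (N, 1)) = Φ.D (N, 1)) (hω : ω ^ N = 1) (hT : Φ.IsT ω T) :
    g * T * g⁻¹ ∈ Φ.NS N :=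
  Subgroup.subset_closure ⟨g, T, ω, hg, hω, hT, rfl⟩

lemma trl_T_mem_NS {Φ : Frame} {N : ℕ} {T : Φ.A ≃ₐ[kk] Φ.A} {ω : kkˣ}
    (hω : ω ^ N = 1) (hT : Φ.IsT ω T) : T ∈ Φ.NS N := by
  have h := trl_mem_NS (Φ := Φ) (N := N) (g := 1) (T := T) rfl hω hT
  rwa [one_mul, inv_one, mul_one] at h

lemma trl_nb_cases {p N1 : ℕ} (hp : p ≠ 0) {u : Vx} (h : Nb p (p * N1, 1) u) :
    u = (p * (p * N1), 1) ∨ ∃ η : kkˣ, η ^ p = 1 ∧ u = (N1, η) := by
  rcases h with ⟨h1, h2⟩ | ⟨h1, h2⟩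
  · left
    rw [one_pow] at h2
    exact Prod.ext h1 h2
  · right
    refine ⟨u.2, h2, ?_⟩
    have h3 : N1 = u.1 := Nat.eq_of_mul_eq_mul_left (Nat.pos_of_ne_zero hp) h1
    exact Prod.ext h3.symm rfl

/-- The image of `(p N₀, 1)` when it is moved by an automorphism fixing `(N₀, 1)`. -/
lemma trl_move (hNB : NB_stmt) {Φ : Frame} {p N1 : ℕ} (hp : p.Prime) (hp2 : p ≠ 2)
    (hodd : Odd (p * N1)) {g : Φ.A ≃ₐ[kk] Φ.A} (hg : g (Φ.D (p * N1, 1)) = Φ.D (p * N1, 1))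
    (hmv : g (Φ.D (p * (p * N1), 1)) ≠ Φ.D (p * (p * N1), 1)) :
    ∃ η : kkˣ, η ^ p = 1 ∧ g (Φ.D (p * (p * N1), 1)) = Φ.D (N1, η) := by
  obtain ⟨u', hu', h⟩ := hNB Φ g (p * N1, 1) (p * N1, 1) p hp hp2 hodd hodd (dvd_mul_right _ _)
    (dvd_mul_right _ _) hg (p * (p * N1), 1) (Or.inl ⟨rfl, (one_pow p).symm⟩)
  rcases trl_nb_cases hp.ne_zero hu' with rfl | ⟨η, hη, rfl⟩
  · exact absurd h hmv
  · exact ⟨η, hη, h⟩

lemma trl_core (hME : ME_stmt) (hDI : DI_stmt) (hNB : NB_stmt) (hNF : NF_stmt) (hTY : TY_stmt)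
    (hTYM : TYM_stmt) (Φ : Frame) (N1 m p : ℕ) (hN : Odd (m * (p * N1))) (hp : p.Prime)
    (hp2 : p ≠ 2) (hm : m ∣ p * N1) (w₁ w₂ : Vx) (h1 : Nb p (p * N1, 1) w₁)
    (h2 : Nb p (p * N1, 1) w₂)
    (h : p ∣ m → w₁ ≠ (p * (p * N1), 1) ∧ w₂ ≠ (p * (p * N1), 1)) :
    ∃ n ∈ Φ.NS (m * (p * N1)), n (Φ.D (p * N1, 1)) = Φ.D (p * N1, 1) ∧ n (Φ.D w₂) = Φ.D w₁ := by
  have hm_odd : Odd m := (Nat.odd_mul.mp hN).1
  have hN0 : Odd (p * N1) := (Nat.odd_mul.mp hN).2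
  have hN1 : Odd N1 := (Nat.odd_mul.mp hN0).2
  have hN1' : N1 ≠ 0 := by
    rintro rfl
    exact absurd hN1 (by decide)
  -- (i)
  have hi : ∀ η η' : kkˣ, η ^ p = 1 → η' ^ p = 1 → ∃ n ∈ Φ.NS (m * (p * N1)),
      n (Φ.D (p * N1, 1)) = Φ.D (p * N1, 1) ∧ n (Φ.D (N1, η)) = Φ.D (N1, η') := by
    intro η η' hη hη'
    obtain ⟨ω, hω⟩ := exists_unit_root N1 hN1' (η' * η⁻¹)
    have hω0 : ω ^ (p * N1) = 1 := by
      rw [mul_comm, pow_mul, hω, mul_pow, hη', inv_pow, hη, inv_one, one_mul]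
    have hωN : ω ^ (m * (p * N1)) = 1 := by
      rw [mul_comm, pow_mul, hω0, one_pow]
    obtain ⟨T, hT⟩ := Φ.exists_T ω
    refine ⟨T, trl_T_mem_NS hωN hT, ?_, ?_⟩
    · rw [Frame.T_D hME hT hN0 1, hω0, one_mul]
    · rw [Frame.T_D hME hT hN1 η, hω]
      congr 2
      rw [mul_comm η', mul_inv_cancel_left]
  -- (ii)
  have hii : ¬ p ∣ m → ∃ η : kkˣ, η ^ p = 1 ∧ ∃ n ∈ Φ.NS (m * (p * N1)),
      n (Φ.D (p * N1, 1)) = Φ.D (p * N1, 1) ∧ n (Φ.D (p * (p * N1), 1)) = Φ.D (N1, η) := by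
    intro hpm
    obtain ⟨γ, hγ, hγ2⟩ := hNF Φ (p * N1) p hN0 hp hp2
    have hγi : γ⁻¹ (Φ.D (p * N1, 1)) = Φ.D (p * N1, 1) := trl_inv_fix hγ
    obtain ⟨ω, hω⟩ := exists_primitive _ hN
    obtain ⟨T, hT⟩ := Φ.exists_T (ω ^ (m ^ 2))
    -- `b`
    have hb0 : (γ * T * γ⁻¹) (Φ.D (p * N1, 1)) = Φ.D (p * N1, 1) := by
      change γ (T (γ⁻¹ (Φ.D (p * N1, 1)))) = _
      have e1 : (ω ^ (m ^ 2)) ^ (p * N1) = 1 := by
        rw [← pow_mul, hω.pow_eq_one_iff_dvd]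
        exact ⟨m, by ring⟩
      rw [hγi, Frame.T_D hME hT hN0 1, e1, one_mul, hγ]
    have hbN : (γ * T * γ⁻¹) (Φ.D (m * (p * N1), 1)) = Φ.D (m * (p * N1), 1) := by
      change γ (T (γ⁻¹ (Φ.D (m * (p * N1), 1)))) = _
      obtain ⟨l, hl, hTl⟩ := hTY.2.2 (p * N1) m hN0 hm_odd
      obtain ⟨v', hv', hgv⟩ := hTYM Φ (p * N1) γ⁻¹ l (p * N1 * m, 1) hN0 (by rw [hl]; exact hm)
        hγi hTl
      obtain ⟨ho, hd, -, -⟩ := hTY.1 (p * N1) l v' hN0 hv'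
      have e0 : p * N1 * m = m * (p * N1) := mul_comm _ _
      rw [e0] at hgv
      rw [hl] at hd
      have e1 : (ω ^ (m ^ 2)) ^ v'.1 = 1 := by
        rw [← pow_mul, hω.pow_eq_one_iff_dvd]
        obtain ⟨k, hk⟩ := hd
        exact ⟨k, by rw [mul_assoc, ← hk]; ring⟩
      rw [hgv]
      have e2 : T (Φ.D v') = Φ.D v' := by
        have := Frame.T_D hME hT ho v'.2
        rw [e1, mul_one] at this
        exact this
      rw [e2, ← hgv]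
      exact trl_apply_inv γ _
    have hbm : (γ * T * γ⁻¹) (Φ.D (p * (p * N1), 1)) ≠ Φ.D (p * (p * N1), 1) := by
      change γ (T (γ⁻¹ (Φ.D (p * (p * N1), 1)))) ≠ _
      have hmv : γ⁻¹ (Φ.D (p * (p * N1), 1)) ≠ Φ.D (p * (p * N1), 1) := by
        intro h3
        apply hγ2
        conv_lhs => rw [← h3]
        exact trl_apply_inv γ _
      obtain ⟨η, hη, hu⟩ := trl_move hNB hp hp2 hN0 hγi hmv
      rw [hu, Frame.T_D hME hT hN1 η]
      intro h4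
      have h5 : Φ.D (N1, η * (ω ^ m ^ 2) ^ N1) = Φ.D (N1, η) := by
        rw [← hu, ← h4]
        exact (trl_inv_apply γ _).symm
      have h6 := hDI Φ _ _ hN1 hN1 h5
      have h7 : η * (ω ^ m ^ 2) ^ N1 = η := congrArg Prod.snd h6
      have h8 : (ω ^ m ^ 2) ^ N1 = 1 := mul_eq_left.mp h7
      rw [← pow_mul, hω.pow_eq_one_iff_dvd] at h8
      apply hpm
      have h9 : m * N1 * p ∣ m * N1 * m := by
        have e1 : m * N1 * p = m * (p * N1) := by ring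
        have e2 : m * N1 * m = m ^ 2 * N1 := by ring
        rw [e1, e2]
        exact h8
      have hmN : m * N1 ≠ 0 := by
        intro h0
        have : m * (p * N1) = 0 := by
          rw [mul_left_comm, h0, mul_zero]
        rw [this] at hN
        exact absurd hN (by decide)
      exact Nat.dvd_of_mul_dvd_mul_left (Nat.pos_of_ne_zero hmN) h9
    set b := γ * T * γ⁻¹ with hb
    have hbi : b⁻¹ (Φ.D (p * N1, 1)) = Φ.D (p * N1, 1) := trl_inv_fix hb0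
    have hbi2 : b⁻¹ (Φ.D (p * (p * N1), 1)) ≠ Φ.D (p * (p * N1), 1) := by
      intro h3
      apply hbm
      conv_lhs => rw [← h3]
      exact trl_apply_inv b _
    obtain ⟨η0, hη0, hu0⟩ := trl_move hNB hp hp2 hN0 hbi hbi2
    obtain ⟨ω', hω'⟩ := exists_primitive _ hN0
    obtain ⟨T', hT'⟩ := Φ.exists_T ω'
    have hω'N : ω' ^ (m * (p * N1)) = 1 := by
      rw [hω'.pow_eq_one_iff_dvd]
      exact dvd_mul_left _ _
    have hn0 : (b * T' * b⁻¹) (Φ.D (p * N1, 1)) = Φ.D (p * N1, 1) := by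
      change b (T' (b⁻¹ (Φ.D (p * N1, 1)))) = _
      rw [hbi, Frame.T_D hME hT' hN0 1, hω'.pow_eq_one, one_mul, hb0]
    have hnm : (b * T' * b⁻¹) (Φ.D (p * (p * N1), 1)) ≠ Φ.D (p * (p * N1), 1) := by
      change b (T' (b⁻¹ (Φ.D (p * (p * N1), 1)))) ≠ _
      rw [hu0, Frame.T_D hME hT' hN1 η0]
      intro h4
      have h5 : Φ.D (N1, η0 * ω' ^ N1) = Φ.D (N1, η0) := by
        rw [← hu0, ← h4]
        exact (trl_inv_apply b _).symm
      have h6 := hDI Φ _ _ hN1 hN1 h5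
      have h7 : η0 * ω' ^ N1 = η0 := congrArg Prod.snd h6
      have h8 : ω' ^ N1 = 1 := mul_eq_left.mp h7
      rw [hω'.pow_eq_one_iff_dvd] at h8
      have h9 := Nat.le_of_dvd (Nat.pos_of_ne_zero hN1') h8
      have h10 : 2 * N1 ≤ p * N1 := Nat.mul_le_mul_right _ hp.two_le
      omega
    obtain ⟨η1, hη1, hu1⟩ := trl_move hNB hp hp2 hN0 hn0 hnm
    exact ⟨η1, hη1, b * T' * b⁻¹, trl_mem_NS hbN hω'N hT', hn0, hu1⟩
  -- conclusion
  rcases trl_nb_cases hp.ne_zero h1 with rfl | ⟨η₁, hη₁, rfl⟩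
  · rcases trl_nb_cases hp.ne_zero h2 with rfl | ⟨η₂, hη₂, rfl⟩
    · exact ⟨1, one_mem _, rfl, rfl⟩
    · have hpm : ¬ p ∣ m := fun hpm => (h hpm).1 rfl
      obtain ⟨η, hη, n, hn, hn0, hn1⟩ := hii hpm
      obtain ⟨n', hn', hn0', hn1'⟩ := hi η₂ η hη₂ hη
      refine ⟨n⁻¹ * n', mul_mem (inv_mem hn) hn', ?_, ?_⟩
      · change n⁻¹ (n' _) = _
        rw [hn0']
        exact trl_inv_fix hn0
      · change n⁻¹ (n' _) = _
        rw [hn1']
        exact trl_inv_fix hn1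
  · rcases trl_nb_cases hp.ne_zero h2 with rfl | ⟨η₂, hη₂, rfl⟩
    · have hpm : ¬ p ∣ m := fun hpm => (h hpm).2 rfl
      obtain ⟨η, hη, n, hn, hn0, hn1⟩ := hii hpm
      obtain ⟨n', hn', hn0', hn1'⟩ := hi η η₁ hη hη₁
      refine ⟨n' * n, mul_mem hn' hn, ?_, ?_⟩
      · change n' (n _) = _
        rw [hn0, hn0']
      · change n' (n _) = _
        rw [hn1, hn1']
    · exact hi η₂ η₁ hη₂ hη₁

theorem TRL_of (hME : ME_stmt) (hDI : DI_stmt) (hNB : NB_stmt) (hNF : NF_stmt) (hTY : TY_stmt)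
    (hTYM : TYM_stmt) : TRL_stmt := by
  intro Φ N m p w₁ w₂ hN hp hp2 hmp h1 h2 h
  have hN0 : N ≠ 0 := by
    rintro rfl
    exact absurd hN (by decide)
  have hm0 : m ≠ 0 := by
    rintro rfl
    rw [zero_mul, zero_pow two_ne_zero, zero_dvd_iff] at hmp
    exact hN0 hmp
  obtain ⟨k, hk⟩ := hmp
  -- `N = m * (p * (m * p * k))`
  have e1 : N = m * (p * (m * p * k)) := by rw [hk]; ring
  have e2 : N / m = p * (m * p * k) := by
    rw [e1]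
    exact Nat.mul_div_cancel_left _ (Nat.pos_of_ne_zero hm0)
  rw [e2] at h1 h2 h ⊢
  rw [e1] at hN ⊢
  exact trl_core hME hDI hNB hNF hTY hTYM Φ (m * p * k) m p hN hp hp2
    ⟨p * (p * k), by ring⟩ w₁ w₂ h1 h2 h

end Pool.Agent.helper7.IG
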