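import Mathlib
import Pool.Agent.helper7.IG.Basic

/-!
# IG, module UD: automorphisms act on the theta series through multipliers
-/

set_option autoImplicit false

open Polynomial

noncomputable section

namespace Pool.Agent.helper7.IG

lemma ud_two_pow_odd {s : ℕ} (hs : 1 ≤ s) {c : ℤ} (hc : Odd c) : Odd (c + 2 ^ s) := by
  refine hc.add_even ?_
  refine (even_two : Even (2 : ℤ)).pow_of_ne_zero ?_
  omega

section
variable (Φ : Frame) (hME : ME_stmt) (hTHM : THM_stmt)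
include hME hTHM

lemma ud_R0 (hR0 : R0_stmt) {v : Vx} (hv : Odd v.1) {s : ℕ} (hs : 2 ≤ s) {c : ℤ} (hc : Odd c) :
    Φ.X v (s + 1) c + Φ.X v (s + 1) (c + 2 ^ s) = Φ.X v s c := by
  have hc2 : Odd (c + 2 ^ s) := ud_two_pow_odd (by omega) hc
  unfold Frame.X
  rw [← Φ.cl_add _ (Frame.X_mem hME hTHM hv (by omega) hc) _
    (Frame.X_mem hME hTHM hv (by omega) hc2), ← map_add, hR0 s hs c hc]

lemma ud_R1 (hR1 : R1_stmt) {v : Vx} (hv : Odd v.1) {s : ℕ} (hs : 2 ≤ s) {c : ℤ} (hc : Odd c) :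
    Φ.X v (s + 1) c * Φ.X v (s + 1) (c + 2 ^ s) =
      Φ.D v ^ (2 * 4 ^ (s - 1)) * (Φ.X v s (c + 2 ^ (s - 1))) ^ 2 := by
  have hc2 : Odd (c + 2 ^ s) := ud_two_pow_odd (by omega) hc
  have hc3 : Odd (c + 2 ^ (s - 1)) := ud_two_pow_odd (by omega) hc
  have m1 := Frame.X_mem hME hTHM hv (s := s + 1) (by omega) hc
  have m2 := Frame.X_mem hME hTHM hv (s := s + 1) (by omega) hc2
  have m3 := Frame.X_mem hME hTHM hv hs hc3
  have m4 : sig v.1 v.2 DDk ∈ MM := Frame.D_mem hME hv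
  unfold Frame.X Frame.D
  rw [← Φ.cl_mul _ m1 _ m2, ← map_mul, hR1 s hs c hc, map_mul, map_pow, map_pow,
    Φ.cl_mul _ (pow_mem m4 _) _ (pow_mem m3 _), Φ.cl_pow m4, Φ.cl_pow m3]

lemma ud_R2 (hR2 : R2_stmt) {v : Vx} (hv : Odd v.1) {s : ℕ} (hs : 2 ≤ s) {c : ℤ} (hc : Odd c) :
    Φ.X v (s + 1) c * Φ.X v (s + 1) (3 * c) =
      (Φ.X v s c) ^ 8 * (Φ.X v (s + 1) c) ^ 2 +
        (Φ.X v s (c + 2 ^ (s - 1))) ^ 8 * (Φ.X v (s + 1) (c + 2 ^ s)) ^ 2 := by
  have hc2 : Odd (c + 2 ^ s) := ud_two_pow_odd (by omega) hc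
  have hc3 : Odd (c + 2 ^ (s - 1)) := ud_two_pow_odd (by omega) hc
  have hc4 : Odd (3 * c) := (by decide : Odd (3 : ℤ)).mul hc
  have m1 := Frame.X_mem hME hTHM hv (s := s + 1) (by omega) hc
  have m2 := Frame.X_mem hME hTHM hv (s := s + 1) (by omega) hc2
  have m3 := Frame.X_mem hME hTHM hv hs hc3
  have m4 := Frame.X_mem hME hTHM hv hs hc
  have m5 := Frame.X_mem hME hTHM hv (s := s + 1) (by omega) hc4
  unfold Frame.X
  rw [← Φ.cl_mul _ m1 _ m5, ← map_mul, hR2 s hs c hc, map_add, map_mul, map_mul, map_pow, map_pow,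
    map_pow, map_pow, Φ.cl_add _ (mul_mem (pow_mem m4 _) (pow_mem m1 _)) _
      (mul_mem (pow_mem m3 _) (pow_mem m2 _)), Φ.cl_mul _ (pow_mem m4 _) _ (pow_mem m1 _),
    Φ.cl_mul _ (pow_mem m3 _) _ (pow_mem m2 _), Φ.cl_pow m4, Φ.cl_pow m1, Φ.cl_pow m3, Φ.cl_pow m2]

end

lemma ud_modEq_half {s : ℕ} (hs : 1 ≤ s) {d : ℤ} (hd : Odd d) (c : ℤ) :
    d * (c + 2 ^ (s - 1)) ≡ d * c + 2 ^ (s - 1) [ZMOD 2 ^ s] := by
  obtain ⟨k, rfl⟩ := hd
  have h2 : (2 : ℤ) ^ s = 2 * 2 ^ (s - 1) := by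
    rw [← pow_succ']
    congr 1
    omega
  rw [Int.modEq_iff_dvd, h2]
  exact ⟨-k, by ring⟩

lemma ud_two_roots {F : Type*} [Field F] {x y a b : F} (h1 : x + y = a + b) (h2 : x * y = a * b) :
    x = a ∨ x = b := by
  have h3 : (x - a) * (x - b) = 0 := by
    have : (x - a) * (x - b) = x * x - (a + b) * x + a * b := by ring
    rw [this, ← h1, ← h2]
    ring
  rcases mul_eq_zero.mp h3 with h | h
  · exact Or.inl (sub_eq_zero.mp h)
  · exact Or.inr (sub_eq_zero.mp h)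

theorem UD_of (hR0 : R0_stmt) (hR1 : R1_stmt) (hR2 : R2_stmt) (hP3 : P3_stmt) (hME : ME_stmt)
    (hTHM : THM_stmt) : UD_stmt := by
  intro Φ g v v' hv hv' hg s hs
  induction s, hs using Nat.le_induction with
  | base =>
    refine ⟨1, odd_one, fun c hc => ?_⟩
    rw [one_mul]
    have h1 : Φ.X v 2 c = Φ.D v := by
      unfold Frame.X Frame.D
      rw [th_two hc]
    have h2 : Φ.X v' 2 c = Φ.D v' := by
      unfold Frame.X Frame.D
      rw [th_two hc]
    rw [h1, h2, hg]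
  | succ s hs ih =>
    obtain ⟨d, hd, ih⟩ := ih
    -- the image of `X v (s + 1) c` is one of the two lifts
    have key : ∀ c : ℤ, Odd c → g (Φ.X v (s + 1) c) = Φ.X v' (s + 1) (d * c) ∨
        g (Φ.X v (s + 1) c) = Φ.X v' (s + 1) (d * c + 2 ^ s) := by
      intro c hc
      have hdc : Odd (d * c) := hd.mul hc
      have hc3 : Odd (c + 2 ^ (s - 1)) := ud_two_pow_odd (by omega) hc
      have e0 := congrArg g (ud_R0 Φ hME hTHM hR0 hv hs hc)
      have e1 := congrArg g (ud_R1 Φ hME hTHM hR1 hv hs hc)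
      rw [map_add, ih c hc, ← ud_R0 Φ hME hTHM hR0 hv' hs hdc] at e0
      rw [map_mul, map_mul, map_pow, map_pow, hg, ih _ hc3,
        Φ.X_congr v' s (ud_modEq_half (by omega) hd c),
        ← ud_R1 Φ hME hTHM hR1 hv' hs hdc] at e1
      exact ud_two_roots e0 e1
    -- choice of the multiplier
    obtain ⟨d', hd', hdd, h1⟩ : ∃ d' : ℤ, Odd d' ∧ d' ≡ d [ZMOD 2 ^ s] ∧
        g (Φ.X v (s + 1) 1) = Φ.X v' (s + 1) d' := by
      rcases key 1 odd_one with h | h
      · exact ⟨d, hd, Int.ModEq.refl _, by rw [h, mul_one]⟩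
      · refine ⟨d + 2 ^ s, ud_two_pow_odd (by omega) hd, ?_, by rw [h, mul_one]⟩
        rw [Int.modEq_iff_dvd]
        exact ⟨-1, by ring⟩
    have ih' : ∀ c : ℤ, Odd c → g (Φ.X v s c) = Φ.X v' s (d' * c) := by
      intro c hc
      rw [ih c hc]
      exact Φ.X_congr v' s (hdd.mul_right c).symm
    -- the step from `c` to `3 c`
    have step : ∀ c : ℤ, Odd c → g (Φ.X v (s + 1) c) = Φ.X v' (s + 1) (d' * c) →
        g (Φ.X v (s + 1) (3 * c)) = Φ.X v' (s + 1) (d' * (3 * c)) := by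
      intro c hc hgc
      have hdc : Odd (d' * c) := hd'.mul hc
      have hc3 : Odd (c + 2 ^ (s - 1)) := ud_two_pow_odd (by omega) hc
      have e0 := congrArg g (ud_R0 Φ hME hTHM hR0 hv hs hc)
      rw [map_add, ih' c hc, ← ud_R0 Φ hME hTHM hR0 hv' hs hdc, hgc] at e0
      have e0' : g (Φ.X v (s + 1) (c + 2 ^ s)) = Φ.X v' (s + 1) (d' * c + 2 ^ s) :=
        add_left_cancel e0
      have e2 := congrArg g (ud_R2 Φ hME hTHM hR2 hv hs hc)
      rw [map_mul, map_add, map_mul, map_mul, map_pow, map_pow, map_pow, map_pow, hgc, e0',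
        ih' c hc, ih' _ hc3, Φ.X_congr v' s (ud_modEq_half (by omega) hd' c),
        ← ud_R2 Φ hME hTHM hR2 hv' hs hdc] at e2
      have e3 := mul_left_cancel₀
        (Frame.X_ne_zero Φ hME hTHM hv' (s := s + 1) (by omega) hdc) e2
      rw [e3]
      congr 1
      ring
    have hpow : ∀ i : ℕ, g (Φ.X v (s + 1) (3 ^ i)) = Φ.X v' (s + 1) (d' * 3 ^ i) := by
      intro i
      induction i with
      | zero => rw [pow_zero, h1, mul_one]
      | succ i ihi =>
        have h3 : Odd ((3 : ℤ) ^ i) := (by decide : Odd (3 : ℤ)).pow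
        rw [pow_succ']
        exact step _ h3 ihi
    refine ⟨d', hd', fun c hc => ?_⟩
    obtain ⟨i, hi⟩ := hP3 (s + 1) c hc
    rw [Φ.X_congr' v (s + 1) hi, hpow i]
    apply Φ.X_congr' v' (s + 1)
    rcases hi with hi | hi
    · exact Or.inl (hi.symm.mul_left d')
    · right
      have := (hi.symm.mul_left d').neg
      rw [mul_neg, neg_neg] at this
      exact this

lemma ud_inv_apply {A : Type*} [Field A] [Algebra kk A] (g : A ≃ₐ[kk] A) (x : A) :
    g⁻¹ (g x) = x := g.symm_apply_apply x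

lemma ud_apply_inv {A : Type*} [Field A] [Algebra kk A] (g : A ≃ₐ[kk] A) (x : A) :
    g (g⁻¹ x) = x := g.apply_symm_apply x

theorem NSX_of (hUD : UD_stmt) (hME : ME_stmt) (hTHM : THM_stmt) : NSX_stmt := by
  intro Φ N n hN hn s c hs hc
  have key : ∀ c : ℤ, Odd c → n (Φ.X (N, 1) s c) = Φ.X (N, 1) s c := by
    unfold Frame.NS at hn
    induction hn using Subgroup.closure_induction with
    | mem x hx =>
      obtain ⟨g, T, ω, hg, hω, hT, rfl⟩ := hx
      intro c hc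
      have hg' : g⁻¹ (Φ.D (N, 1)) = Φ.D (N, 1) := by
        conv_lhs => rw [← hg]
        exact ud_inv_apply g _
      obtain ⟨d, hd, h⟩ := hUD Φ g⁻¹ (N, 1) (N, 1) hN hN hg' s hs
      change g (T (g⁻¹ (Φ.X (N, 1) s c))) = _
      rw [h c hc, Frame.T_X hME hTHM hT hN 1 hs (hd.mul hc), hω, one_mul, ← h c hc]
      exact ud_apply_inv g _
    | one => intro c _; rfl
    | mul x y _ _ hx hy =>
      intro c hc
      change x (y (Φ.X (N, 1) s c)) = _
      rw [hy c hc, hx c hc]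
    | inv x _ hx =>
      intro c hc
      conv_lhs => rw [← hx c hc]
      exact ud_inv_apply x _
  exact key c hc

end Pool.Agent.helper7.IG
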